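import Mathlib

namespace Pool.Agent.Results.MP_33a63d_co.CompleteMultipartite

open SimpleGraph

/-- `ram 𝓑 T` is the least `N` such that every 2-colouring of the edges of `K_N` contains a copy
of some member of the family `𝓑` in colour 1 (the graph `c`) or a copy of `T` in colour 2
(the graph `cᶜ`). -/
noncomputable def ram (𝓑 : Set (Σ W : Type, SimpleGraph W)) {U : Type} (T : SimpleGraph U) : ℕ :=
  sInf {N : ℕ | ∀ c : SimpleGraph (Fin N), (∃ B ∈ 𝓑, B.2 ⊑ c) ∨ T ⊑ cᶜ}

/-- The decomposition class `𝓑(G)`: the graphs induced by `G` on the union of two colour classes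
of a proper colouring of `G` with exactly `χ(G)` colours. -/
def decomp {V : Type} (G : SimpleGraph V) : Set (Σ W : Type, SimpleGraph W) :=
  {B | ∃ (k : ℕ) (_ : G.chromaticNumber = k) (C : G.Coloring (Fin k)) (i j : Fin k), i ≠ j ∧
    B = ⟨↥{v : V | C v = i ∨ C v = j}, G.induce {v : V | C v = i ∨ C v = j}⟩}

/-- The decomposition formula `r(G,T) = (χ(G)-2)(n-1) + r(𝓑(G),T)` holds for all trees `T` on
`n` vertices, for all large `n`. -/
def SatisfiesFormula {V : Type} (G : SimpleGraph V) : Prop :=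
  ∃ k : ℕ, G.chromaticNumber = k ∧ ∃ n₀ : ℕ, ∀ n ≥ n₀, ∀ T : SimpleGraph (Fin n), T.IsTree →
    ram {⟨V, G⟩} T = (k - 2) * (n - 1) + ram (decomp G) T

/-- `G` (of chromatic number `k`) is matching-robust: whenever `V(G)` is split into `k-1` parts
(numbered `0, …, k-2`) such that part 1 induces a graph of maximum degree at most 1 and the
parts `2, …, k-2` are independent, the graph induced on part 0 contains a copy of a member of the
decomposition class. -/
def MatchingRobust {V : Type} (G : SimpleGraph V) (k : ℕ) : Prop :=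
  ∀ p : V → ℕ, (∀ v, p v < k - 1) →
    (∀ v x y, p v = 1 → p x = 1 → p y = 1 → G.Adj v x → G.Adj v y → x = y) →
    (∀ v w, 2 ≤ p v → p v = p w → ¬ G.Adj v w) →
    ∃ B ∈ decomp G, B.2 ⊑ G.induce {v : V | p v = 0}

/-! ### Finiteness of the Ramsey numbers involved -/

theorem star_of_degree {N m : ℕ} (D : SimpleGraph (Fin N)) (v : Fin N)
    (S : Finset (Fin N)) (hS : ∀ x ∈ S, D.Adj v x) (hc : m ≤ S.card) :
    starGraph (0 : Fin (m + 1)) ⊑ D := by
  obtain ⟨g⟩ : Nonempty (Fin m ↪ S) := by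
    apply Function.Embedding.nonempty_of_card_le
    simpa using hc
  let f : Fin (m + 1) → Fin N := Fin.cons v (fun i => (g i : Fin N))
  have hf : ∀ x y, (starGraph (0 : Fin (m + 1))).Adj x y → D.Adj (f x) (f y) := by
    intro x y hxy
    rw [starGraph_adj] at hxy
    obtain ⟨hne, h | h⟩ := hxy
    · subst h
      obtain ⟨y', rfl⟩ := Fin.exists_succ_eq.mpr (Ne.symm hne)
      simpa [f] using hS _ (g y').2
    · subst h
      obtain ⟨x', rfl⟩ := Fin.exists_succ_eq.mpr hne
      simpa [f] using (hS _ (g x').2).symm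
  refine ⟨⟨⟨f, fun {x y} h => hf x y h⟩, ?_⟩⟩
  change Function.Injective f
  refine Fin.cons_injective_iff.mpr ⟨?_, ?_⟩
  · rintro ⟨i, hi⟩
    have := hS _ (g i).2
    simp only at hi
    rw [hi] at this
    exact D.irrefl this
  · intro a b hab
    exact g.injective (Subtype.ext hab)

theorem clique_of_no_star {N m : ℕ} (c : SimpleGraph (Fin N))
    (hst : ¬ starGraph (0 : Fin (m + 1)) ⊑ cᶜ) :
    ∀ (t : ℕ) (S : Finset (Fin N)), t * (m + 1) ≤ S.card →
      ∃ A : Finset (Fin N), A ⊆ S ∧ A.card = t ∧ ∀ x ∈ A, ∀ y ∈ A, x ≠ y → c.Adj x y := by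
  classical
  intro t
  induction t with
  | zero => intro S _; exact ⟨∅, by simp, by simp, by simp⟩
  | succ t ih =>
    intro S hS
    have hpos : 0 < S.card := by
      have : 0 < (t + 1) * (m + 1) := by positivity
      omega
    obtain ⟨v, hv⟩ := Finset.card_pos.mp hpos
    have hbad : (S.filter (fun x => cᶜ.Adj v x)).card < m := by
      by_contra hcon
      push Not at hcon
      exact hst (star_of_degree cᶜ v _ (fun x hx => (Finset.mem_filter.mp hx).2) hcon)
    set S' := (S.filter (fun x => ¬ cᶜ.Adj v x)).erase v with hS'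
    have hcard : t * (m + 1) ≤ S'.card := by
      have h1 := Finset.card_filter_add_card_filter_not (s := S) (fun x => cᶜ.Adj v x)
      have h2 : (S.filter (fun x => ¬ cᶜ.Adj v x)).card ≤ S'.card + 1 := by
        rw [hS']
        have := Finset.pred_card_le_card_erase (s := S.filter (fun x => ¬ cᶜ.Adj v x)) (a := v)
        omega
      have h3 : (t + 1) * (m + 1) = t * (m + 1) + (m + 1) := by ring
      omega
    obtain ⟨A, hA1, hA2, hA3⟩ := ih S' hcard
    have hvA : v ∉ A := fun h => by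
      have := hA1 h
      simp [hS'] at this
    refine ⟨insert v A, ?_, ?_, ?_⟩
    · intro x hx
      rcases Finset.mem_insert.mp hx with rfl | hx
      · exact hv
      · exact (Finset.mem_filter.mp (Finset.mem_of_mem_erase (hA1 hx))).1
    · rw [Finset.card_insert_of_notMem hvA, hA2]
    · have key : ∀ x ∈ A, c.Adj v x := by
        intro x hx
        have h1 := hA1 hx
        rw [hS', Finset.mem_erase, Finset.mem_filter] at h1
        by_contra hcon
        apply h1.2.2
        rw [compl_adj]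
        exact ⟨Ne.symm h1.1, hcon⟩
      intro x hx y hy hxy
      rcases Finset.mem_insert.mp hx with hx' | hx'
      · rw [hx']
        rcases Finset.mem_insert.mp hy with hy' | hy'
        · exact absurd (hx'.trans hy'.symm) hxy
        · exact key y hy'
      · rcases Finset.mem_insert.mp hy with hy' | hy'
        · rw [hy']
          exact (key x hx').symm
        · exact hA3 x hx' y hy' hxy

theorem ramsey_nonempty {V : Type} [Fintype V] (G : SimpleGraph V) (m : ℕ) :
    ∃ N : ℕ, ∀ c : SimpleGraph (Fin N),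
      (∃ B ∈ ({⟨V, G⟩} : Set (Σ W : Type, SimpleGraph W)), B.2 ⊑ c) ∨
        starGraph (0 : Fin (m + 1)) ⊑ cᶜ := by
  classical
  refine ⟨Fintype.card V * (m + 1), fun c => ?_⟩
  by_cases hst : starGraph (0 : Fin (m + 1)) ⊑ cᶜ
  · exact Or.inr hst
  · left
    obtain ⟨A, -, hA2, hA3⟩ := clique_of_no_star c hst (Fintype.card V) Finset.univ (by simp)
    obtain ⟨e⟩ : Nonempty (V ↪ A) := by
      apply Function.Embedding.nonempty_of_card_le
      simp [hA2]
    refine ⟨⟨V, G⟩, rfl, ⟨⟨⟨fun v => (e v : Fin _), ?_⟩, ?_⟩⟩⟩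
    · intro a b hab
      exact hA3 _ (e a).2 _ (e b).2 (fun h => hab.ne (e.injective (Subtype.ext h)))
    · intro a b hab
      exact e.injective (Subtype.ext hab)

/-- A bad colouring on a finite type `P` gives a lower bound for the Ramsey number. -/
theorem lt_ram {V : Type} [Fintype V] (G : SimpleGraph V) (m : ℕ) {P : Type} [Fintype P]
    (c : SimpleGraph P) (hG : ¬ G ⊑ c) (hT : ¬ starGraph (0 : Fin (m + 1)) ⊑ cᶜ) :
    Fintype.card P < ram {⟨V, G⟩} (starGraph (0 : Fin (m + 1))) := by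
  classical
  by_contra hcon
  push Not at hcon
  have hmem : ram {⟨V, G⟩} (starGraph (0 : Fin (m + 1))) ∈ {N : ℕ | ∀ c : SimpleGraph (Fin N),
      (∃ B ∈ ({⟨V, G⟩} : Set (Σ W : Type, SimpleGraph W)), B.2 ⊑ c) ∨
        starGraph (0 : Fin (m + 1)) ⊑ cᶜ} := Nat.sInf_mem (ramsey_nonempty G m)
  obtain ⟨e⟩ : Nonempty (Fin (ram {⟨V, G⟩} (starGraph (0 : Fin (m + 1)))) ↪ P) := by
    apply Function.Embedding.nonempty_of_card_le
    simpa using hcon
  rcases hmem (c.comap e) with ⟨B, hB, hBc⟩ | hst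
  · rw [Set.mem_singleton_iff] at hB
    subst hB
    exact hG (hBc.trans ⟨(Embedding.comap e c).toCopy⟩)
  · apply hT
    refine hst.trans ⟨⟨⟨e, ?_⟩, e.injective⟩⟩
    intro a b hab
    rw [compl_adj] at hab ⊢
    exact ⟨fun h => hab.1 (e.injective h), fun h => hab.2 h⟩


/-! ### The colouring -/

/-- The vertex set: a part `Fin m₁`, a part of `2h` vertices (pairs), and `k-3` parts of
`2h-1` vertices. -/
abbrev PP (m₁ h k n : ℕ) : Type := Fin m₁ ⊕ ((Fin h × Bool) ⊕ (Fin (k - 3) × Fin n))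

/-- colour 1: `c₁` inside the first part, a perfect matching inside the second part, nothing
inside the other parts, everything between different parts -/
def col {m₁ h k n : ℕ} (c₁ : SimpleGraph (Fin m₁)) : SimpleGraph (PP m₁ h k n) where
  Adj x y := match x, y with
    | .inl a, .inl b => c₁.Adj a b
    | .inr (.inl a), .inr (.inl b) => a.1 = b.1 ∧ a.2 ≠ b.2
    | .inr (.inr a), .inr (.inr b) => a.1 ≠ b.1
    | _, _ => True
  symm := ⟨by
    rintro (a | a | a) (b | b | b) hab <;> simp only at hab ⊢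
    · exact hab.symm
    · exact ⟨hab.1.symm, hab.2.symm⟩
    · exact hab.symm⟩
  loopless := ⟨by
    rintro (a | a | a) hab <;> simp only at hab
    · exact c₁.irrefl hab
    · exact hab.2 rfl
    · exact hab rfl⟩

/-- number of the part -/
def part {m₁ h k n : ℕ} : PP m₁ h k n → ℕ
  | .inl _ => 0
  | .inr (.inl _) => 1
  | .inr (.inr a) => 2 + a.1

theorem card_PP (m₁ h k n : ℕ) : Fintype.card (PP m₁ h k n) = m₁ + (2 * h + (k - 3) * n) := by
  simp [PP, Fintype.card_sum, Fintype.card_prod, mul_comm]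

/-- no star in colour 2 -/
theorem no_star {m₁ h k : ℕ} (hh : 1 ≤ h) (c₁ : SimpleGraph (Fin m₁))
    (hc : ¬ starGraph (0 : Fin (2 * h - 1 + 1)) ⊑ c₁ᶜ) :
    ¬ starGraph (0 : Fin (2 * h - 1 + 1)) ⊑ (col (m₁ := m₁) (h := h) (k := k) (n := 2 * h - 1) c₁)ᶜ := by
  classical
  rintro ⟨f⟩
  have hadj : ∀ i, i ≠ 0 → (col (m₁ := m₁) (h := h) (k := k) (n := 2 * h - 1) c₁)ᶜ.Adj
      (f.toHom 0) (f.toHom i) := fun i hi =>
    f.toHom.map_rel (starGraph_center_adj (Ne.symm hi))
  have hnadj : ∀ i, ¬ (col (m₁ := m₁) (h := h) (k := k) (n := 2 * h - 1) c₁).Adj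
      (f.toHom 0) (f.toHom i) := by
    intro i
    by_cases hi : i = 0
    · subst hi; exact (col c₁).irrefl
    · exact ((compl_adj _ _ _).mp (hadj i hi)).2
  have hinj := f.injective'
  rcases h0 : f.toHom 0 with a | a | a
  · -- first part
    have hall : ∀ i, ∃ b, f.toHom i = Sum.inl b := by
      intro i
      have := hnadj i
      rw [h0] at this
      rcases hi : f.toHom i with b | b | b
      · exact ⟨b, rfl⟩
      · rw [hi] at this; exact absurd trivial this
      · rw [hi] at this; exact absurd trivial this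
    choose g hg using hall
    apply hc
    have hginj : Function.Injective g := by
      intro x y hxy
      apply hinj
      rw [hg x, hg y, hxy]
    refine ⟨⟨⟨g, ?_⟩, hginj⟩⟩
    intro x y hxy
    have h1 := f.toHom.map_rel hxy
    rw [hg x, hg y, compl_adj] at h1
    rw [compl_adj]
    exact ⟨fun h => h1.1 (by rw [h]), fun h => h1.2 h⟩
  · -- second part
    have hall : ∀ i, ∃ b, f.toHom i = Sum.inr (Sum.inl b) := by
      intro i
      have := hnadj i
      rw [h0] at this
      rcases hi : f.toHom i with b | b | b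
      · rw [hi] at this; exact absurd trivial this
      · exact ⟨b, rfl⟩
      · rw [hi] at this; exact absurd trivial this
    choose g hg using hall
    have hginj : Function.Injective g := by
      intro x y hxy
      apply hinj
      rw [hg x, hg y, hxy]
    have hcard : Fintype.card (Fin (2 * h - 1 + 1)) = Fintype.card (Fin h × Bool) := by
      simp only [Fintype.card_fin, Fintype.card_prod, Fintype.card_bool]
      omega
    have hsurj : Function.Surjective g :=
      ((Fintype.bijective_iff_injective_and_card g).mpr ⟨hginj, hcard⟩).2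
    obtain ⟨i, hi⟩ := hsurj (a.1, !a.2)
    apply hnadj i
    rw [h0, hg i, hi]
    exact ⟨rfl, by simp⟩
  · -- other parts
    have hall : ∀ i, ∃ b, f.toHom i = Sum.inr (Sum.inr (a.1, b)) := by
      intro i
      have := hnadj i
      rw [h0] at this
      rcases hi : f.toHom i with b | b | b
      · rw [hi] at this; exact absurd trivial this
      · rw [hi] at this; exact absurd trivial this
      · rw [hi] at this
        have hb : a.1 = b.1 := by
          by_contra hne
          exact this hne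
        exact ⟨b.2, by rw [hb]⟩
    choose g hg using hall
    have hginj : Function.Injective g := by
      intro x y hxy
      apply hinj
      rw [hg x, hg y, hxy]
    have := Fintype.card_le_of_injective g hginj
    simp only [Fintype.card_fin] at this
    omega

/-- no copy of `G` in colour 1 -/
theorem no_G {V : Type} (G : SimpleGraph V) {k m₁ h n : ℕ} (hk : 3 ≤ k)
    (hR : MatchingRobust G k) (c₁ : SimpleGraph (Fin m₁)) (hc : ∀ B ∈ decomp G, ¬ B.2 ⊑ c₁) :
    ¬ G ⊑ (col (m₁ := m₁) (h := h) (k := k) (n := n) c₁) := by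
  rintro ⟨f⟩
  have hinj := f.injective'
  have hadj : ∀ {v w}, G.Adj v w → (col (m₁ := m₁) (h := h) (k := k) (n := n) c₁).Adj
      (f.toHom v) (f.toHom w) := fun hvw => f.toHom.map_rel hvw
  obtain ⟨B, hB, hBW⟩ := hR (fun v => part (f.toHom v)) (by
      intro v
      show part (f.toHom v) < k - 1
      rcases f.toHom v with a | a | a
      · simp only [part]; omega
      · simp only [part]; omega
      · simp only [part]; have := a.1.2; omega) (by
      intro v x y hv hx hy hvx hvy
      change part (f.toHom v) = 1 at hv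
      change part (f.toHom x) = 1 at hx
      change part (f.toHom y) = 1 at hy
      have h1 := hadj hvx
      have h2 := hadj hvy
      apply hinj
      rcases hfv : f.toHom v with a | a | a
      · rw [hfv] at hv; simp [part] at hv
      · rcases hfx : f.toHom x with b | b | b
        · rw [hfx] at hx; simp [part] at hx
        · rcases hfy : f.toHom y with d | d | d
          · rw [hfy] at hy; simp [part] at hy
          · rw [hfv, hfx] at h1
            rw [hfv, hfy] at h2
            have h1' : a.1 = b.1 ∧ a.2 ≠ b.2 := h1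
            have h2' : a.1 = d.1 ∧ a.2 ≠ d.2 := h2
            have : b = d := by
              apply Prod.ext
              · rw [← h1'.1, ← h2'.1]
              · cases hb : b.2 <;> cases hd : d.2 <;> cases ha : a.2 <;> simp_all
            rw [this]
          · rw [hfy] at hy; simp only [part] at hy; omega
        · rw [hfx] at hx; simp only [part] at hx; omega
      · rw [hfv] at hv; simp only [part] at hv; omega) (by
      intro v w hv hvw hG
      change 2 ≤ part (f.toHom v) at hv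
      change part (f.toHom v) = part (f.toHom w) at hvw
      have h1 := hadj hG
      rcases hfv : f.toHom v with a | a | a
      · rw [hfv] at hv; simp [part] at hv
      · rw [hfv] at hv; simp [part] at hv
      · rcases hfw : f.toHom w with b | b | b
        · rw [hfv, hfw] at hvw; simp only [part] at hvw; omega
        · rw [hfv, hfw] at hvw; simp only [part] at hvw; omega
        · rw [hfv, hfw] at hvw h1
          simp only [part] at hvw
          have h1' : a.1 ≠ b.1 := h1
          exact h1' (Fin.ext (by omega)))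
  apply hc B hB
  refine hBW.trans ?_
  have hall : ∀ v : {v : V | part (f.toHom v) = 0}, ∃ b, f.toHom v = Sum.inl b := by
    rintro ⟨v, hv⟩
    change part (f.toHom v) = 0 at hv
    rcases hfv : f.toHom v with a | a | a
    · exact ⟨a, rfl⟩
    · rw [hfv] at hv; simp [part] at hv
    · rw [hfv] at hv; simp only [part] at hv; omega
  choose g hg using hall
  refine ⟨⟨⟨g, ?_⟩, ?_⟩⟩
  · intro x y hxy
    have h1 := hadj (induce_adj.mp hxy)
    rw [hg x, hg y] at h1
    exact h1
  · intro x y hxy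
    have hxy' : g x = g y := hxy
    apply Subtype.ext
    apply hinj
    rw [hg x, hg y, hxy']

/-- The general criterion. -/
theorem criterion {V : Type} [Fintype V] (G : SimpleGraph V) (k : ℕ) (hk : 3 ≤ k)
    (hR : MatchingRobust G k) (h : ℕ) (hh : 1 ≤ h) :
    (k - 2) * (2 * h - 1) + ram (decomp G) (starGraph (0 : Fin (2 * h - 1 + 1))) <
      ram {⟨V, G⟩} (starGraph (0 : Fin (2 * h - 1 + 1))) := by
  classical
  set R := ram (decomp G) (starGraph (0 : Fin (2 * h - 1 + 1))) with hRdef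
  obtain ⟨c₁, hc1, hc2⟩ : ∃ c₁ : SimpleGraph (Fin (R - 1)), (∀ B ∈ decomp G, ¬ B.2 ⊑ c₁) ∧
      ¬ starGraph (0 : Fin (2 * h - 1 + 1)) ⊑ c₁ᶜ := by
    rcases Nat.eq_zero_or_pos R with h0 | hpos
    · refine ⟨⊥, ?_, ?_⟩
      · rintro B ⟨k', hk', C, i, j, hij, rfl⟩ ⟨f⟩
        obtain ⟨v, hv⟩ := le_chromaticNumber_iff_forall_surjective.mp (le_of_eq hk'.symm) C i
        have := f.toHom ⟨v, Or.inl hv⟩
        rw [h0] at this
        exact this.elim0
      · rintro ⟨f⟩
        have := f.toHom 0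
        rw [h0] at this
        exact this.elim0
    · have hnot : (R - 1) ∉ {N : ℕ | ∀ c : SimpleGraph (Fin N), (∃ B ∈ decomp G, B.2 ⊑ c) ∨
          starGraph (0 : Fin (2 * h - 1 + 1)) ⊑ cᶜ} :=
        Nat.notMem_of_lt_sInf (by change R - 1 < R; omega)
      change ¬ (∀ c : SimpleGraph (Fin (R - 1)), (∃ B ∈ decomp G, B.2 ⊑ c) ∨
          starGraph (0 : Fin (2 * h - 1 + 1)) ⊑ cᶜ) at hnot
      simp only [not_forall, not_or, not_exists, not_and] at hnot
      obtain ⟨c, hc, hc'⟩ := hnot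
      exact ⟨c, hc, hc'⟩
  have hlt := lt_ram G (2 * h - 1) (col (m₁ := R - 1) (h := h) (k := k) (n := 2 * h - 1) c₁)
    (no_G G hk hR c₁ hc1) (no_star hh c₁ hc2)
  rw [card_PP] at hlt
  refine lt_of_le_of_lt ?_ hlt
  obtain ⟨k', rfl⟩ : ∃ k', k = k' + 3 := ⟨k - 3, by omega⟩
  have e1 : (k' + 3 - 2) * (2 * h - 1) = k' * (2 * h - 1) + (2 * h - 1) := by
    rw [show k' + 3 - 2 = k' + 1 by omega]; ring
  have e2 : k' + 3 - 3 = k' := by omega
  rw [e1, e2]
  omega


/-! ### Complete multipartite graphs -/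

/-- the complete multipartite graph with classes of sizes `s i` -/
abbrev KM {k : ℕ} (s : Fin k → ℕ) : SimpleGraph (Σ i : Fin k, Fin (s i)) :=
  completeMultipartiteGraph fun i : Fin k => Fin (s i)

theorem chrom_KM {k : ℕ} (s : Fin k → ℕ) (h1 : ∀ i, 1 ≤ s i) : (KM s).chromaticNumber = k := by
  have := completeMultipartiteGraph.chromaticNumber (fun i : Fin k => Fin (s i))
    (fun i => ⟨0, h1 i⟩)
  simpa using this

theorem robust_aux {k : ℕ} (s : Fin k → ℕ) (h1 : ∀ i, 1 ≤ s i)
    (p : (Σ i : Fin k, Fin (s i)) → ℕ) (a b : Fin k) (hab : a ≠ b)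
    (φ : (Σ i : Fin k, Fin (s i)) → (Σ i : Fin k, Fin (s i)))
    (h0 : ∀ v, v.1 = a ∨ v.1 = b → p (φ v) = 0)
    (hinj : ∀ v w, (v.1 = a ∨ v.1 = b) → (w.1 = a ∨ w.1 = b) → φ v = φ w → v = w)
    (hadj : ∀ v w, v.1 = a → w.1 = b → (φ v).1 ≠ (φ w).1) :
    ∃ B ∈ decomp (KM s), B.2 ⊑ (KM s).induce {v | p v = 0} := by
  refine ⟨_, ⟨k, chrom_KM s h1, completeMultipartiteGraph.coloring _, a, b, hab, rfl⟩, ?_⟩
  refine ⟨⟨⟨fun v => ⟨φ v.1, h0 v.1 v.2⟩, ?_⟩, ?_⟩⟩
  · rintro ⟨v, hv⟩ ⟨w, hw⟩ hvw
    change (φ v).1 ≠ (φ w).1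
    have hne : v.1 ≠ w.1 := hvw
    have hv' : v.1 = a ∨ v.1 = b := hv
    have hw' : w.1 = a ∨ w.1 = b := hw
    rcases hv' with hv' | hv' <;> rcases hw' with hw' | hw'
    · exact absurd (hv'.trans hw'.symm) hne
    · exact hadj v w hv' hw'
    · exact (hadj w v hw' hv').symm
    · exact absurd (hv'.trans hw'.symm) hne
  · rintro ⟨v, hv⟩ ⟨w, hw⟩ hvw
    apply Subtype.ext
    exact hinj v w hv hw (congrArg Subtype.val hvw)

/-- two classes completely inside part 0 -/
theorem robust_two {k : ℕ} (s : Fin k → ℕ) (h1 : ∀ i, 1 ≤ s i)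
    (p : (Σ i : Fin k, Fin (s i)) → ℕ) (a b : Fin k) (hab : a ≠ b)
    (ha : ∀ x, p ⟨a, x⟩ = 0) (hb : ∀ x, p ⟨b, x⟩ = 0) :
    ∃ B ∈ decomp (KM s), B.2 ⊑ (KM s).induce {v | p v = 0} := by
  refine robust_aux s h1 p a b hab id ?_ (fun v w _ _ h => h) ?_
  · rintro ⟨i, x⟩ (h | h)
    · simp only at h; subst h; exact ha x
    · simp only at h; subst h; exact hb x
  · intro v w hv hw
    simpa [hv, hw] using hab

/-- one class inside part 0, two classes with one vertex each in part 1 -/
theorem robust_one {k : ℕ} (s : Fin k → ℕ) (h1 : ∀ i, 1 ≤ s i)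
    (p : (Σ i : Fin k, Fin (s i)) → ℕ)
    (hp1 : ∀ v x y, p v = 1 → p x = 1 → p y = 1 → (KM s).Adj v x → (KM s).Adj v y → x = y)
    (z a b : Fin k) (hza : z ≠ a) (hzb : z ≠ b) (hab : a ≠ b)
    (hz : ∀ x, p ⟨z, x⟩ = 0) (x₀ : Fin (s a)) (hx0 : p ⟨a, x₀⟩ = 1)
    (y₀ : Fin (s b)) (hy0 : p ⟨b, y₀⟩ = 1) (ha : ∀ x, p ⟨a, x⟩ ≤ 1) (hb : ∀ x, p ⟨b, x⟩ ≤ 1)
    (hsb : 2 ≤ s b) :
    ∃ B ∈ decomp (KM s), B.2 ⊑ (KM s).induce {v | p v = 0} := by
  classical
  have haAll : ∀ x, x ≠ x₀ → p ⟨a, x⟩ = 0 := by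
    intro x hx
    by_contra hne
    have h : p ⟨a, x⟩ = 1 := by have := ha x; omega
    have := hp1 ⟨b, y₀⟩ ⟨a, x⟩ ⟨a, x₀⟩ hy0 h hx0 (by simpa using hab.symm) (by simpa using hab.symm)
    simp only [Sigma.mk.injEq, heq_eq_eq, true_and] at this
    exact hx this
  have hbAll : ∀ x, x ≠ y₀ → p ⟨b, x⟩ = 0 := by
    intro x hx
    by_contra hne
    have h : p ⟨b, x⟩ = 1 := by have := hb x; omega
    have := hp1 ⟨a, x₀⟩ ⟨b, x⟩ ⟨b, y₀⟩ hx0 h hy0 (by simpa using hab) (by simpa using hab)
    simp only [Sigma.mk.injEq, heq_eq_eq, true_and] at this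
    exact hx this
  obtain ⟨y₁, hy1⟩ : ∃ y₁ : Fin (s b), y₁ ≠ y₀ := by
    have : Nontrivial (Fin (s b)) := Fin.nontrivial_iff_two_le.mpr hsb
    exact exists_ne y₀
  refine robust_aux s h1 p z a hza
    (fun v => if v = ⟨a, x₀⟩ then ⟨b, y₁⟩ else v) ?_ ?_ ?_
  · rintro ⟨i, x⟩ h
    by_cases hc : (⟨i, x⟩ : Σ i : Fin k, Fin (s i)) = ⟨a, x₀⟩
    · simp only [hc, if_true]
      exact hbAll y₁ hy1
    · simp only [hc, if_false]
      rcases h with h | h
      · simp only at h; subst h; exact hz x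
      · simp only at h; subst h
        exact haAll x (fun hx => hc (by rw [hx]))
  · rintro v w hv hw hvw
    by_cases hc : v = ⟨a, x₀⟩ <;> by_cases hd : w = ⟨a, x₀⟩
    · rw [hc, hd]
    · simp only [hc, hd, if_true, if_false] at hvw
      exfalso
      rcases hw with hw | hw
      · rw [← hvw] at hw; exact hzb hw.symm
      · rw [← hvw] at hw; exact hab hw.symm
    · simp only [hc, hd, if_true, if_false] at hvw
      exfalso
      rcases hv with hv | hv
      · rw [hvw] at hv; exact hzb hv.symm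
      · rw [hvw] at hv; exact hab hv.symm
    · simpa only [hc, hd, if_false] using hvw
  · intro v w hv hw
    have hv' : v ≠ ⟨a, x₀⟩ := by
      rintro rfl
      exact hza hv.symm
    simp only [hv', if_false]
    by_cases hd : w = ⟨a, x₀⟩
    · simp only [hd, if_true, hv]
      exact hzb
    · simp only [hd, if_false, hv, hw]
      exact hza

theorem robust_KM {k : ℕ} (s : Fin k → ℕ) (hk : 3 ≤ k) (h1 : ∀ i, 1 ≤ s i)
    (h2 : ∀ i j, i ≠ j → 2 ≤ s i ∨ 2 ≤ s j) : MatchingRobust (KM s) k := by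
  classical
  intro p hp hp1 hp2
  -- classes touched only by the parts 0 and 1
  set Q : Finset (Fin k) := Finset.univ.filter (fun i => ∀ x, p ⟨i, x⟩ ≤ 1) with hQ
  have hQc : (Finset.univ \ Q).card ≤ k - 3 := by
    have hex : ∀ i : Fin k, i ∉ Q → ∃ x, 2 ≤ p ⟨i, x⟩ := by
      intro i hi
      simp only [hQ, Finset.mem_filter, Finset.mem_univ, true_and, not_forall, not_le] at hi
      obtain ⟨x, hx⟩ := hi
      exact ⟨x, hx⟩
    let g : Fin k → ℕ := fun i => if h : i ∉ Q then p ⟨i, (hex i h).choose⟩ else 0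
    have hg : ∀ i (h : i ∉ Q), g i = p ⟨i, (hex i h).choose⟩ := fun i h => by simp [g, h]
    have hmaps : ∀ i ∈ Finset.univ \ Q, g i ∈ Finset.Ico 2 (k - 1) := by
      intro i hi
      have hi' : i ∉ Q := (Finset.mem_sdiff.mp hi).2
      rw [hg i hi', Finset.mem_Ico]
      exact ⟨(hex i hi').choose_spec, hp _⟩
    have hinj : Set.InjOn g (Finset.univ \ Q : Finset (Fin k)) := by
      intro i hi j hj hij
      have hi' : i ∉ Q := (Finset.mem_sdiff.mp (Finset.mem_coe.mp hi)).2
      have hj' : j ∉ Q := (Finset.mem_sdiff.mp (Finset.mem_coe.mp hj)).2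
      rw [hg i hi', hg j hj'] at hij
      by_contra hne
      exact hp2 _ _ (hex i hi').choose_spec hij (by simpa using hne)
    have := Finset.card_le_card_of_injOn g hmaps hinj
    rw [Nat.card_Ico] at this
    omega
  have hQ3 : 2 < Q.card := by
    have h3 : (Finset.univ \ Q).card = k - Q.card := by
      rw [Finset.card_sdiff_of_subset (Finset.subset_univ _), Finset.card_univ, Fintype.card_fin]
    omega
  obtain ⟨a, ha, b, hb, c, hc, hab, hac, hbc⟩ := Finset.two_lt_card.mp hQ3
  have hqa : ∀ x, p ⟨a, x⟩ ≤ 1 := (Finset.mem_filter.mp ha).2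
  have hqb : ∀ x, p ⟨b, x⟩ ≤ 1 := (Finset.mem_filter.mp hb).2
  have hqc : ∀ x, p ⟨c, x⟩ ≤ 1 := (Finset.mem_filter.mp hc).2
  -- either clean or a vertex in part 1
  have hdic : ∀ i, (∀ x, p ⟨i, x⟩ ≤ 1) → (∀ x, p ⟨i, x⟩ = 0) ∨ ∃ x, p ⟨i, x⟩ = 1 := by
    intro i hi
    by_cases h : ∀ x, p ⟨i, x⟩ = 0
    · exact Or.inl h
    · right
      push Not at h
      obtain ⟨x, hx⟩ := h
      exact ⟨x, by have := hi x; omega⟩
  have hone : ∀ z a b : Fin k, z ≠ a → z ≠ b → a ≠ b → (∀ x, p ⟨z, x⟩ = 0) →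
      (∃ x, p ⟨a, x⟩ = 1) → (∃ x, p ⟨b, x⟩ = 1) → (∀ x, p ⟨a, x⟩ ≤ 1) → (∀ x, p ⟨b, x⟩ ≤ 1) →
      ∃ B ∈ decomp (KM s), B.2 ⊑ (KM s).induce {v | p v = 0} := by
    rintro z a b hza hzb hab hz ⟨x, hx⟩ ⟨y, hy⟩ ha hb
    rcases h2 a b hab with h | h
    · exact robust_one s h1 p hp1 z b a hzb hza hab.symm hz y hy x hx hb ha h
    · exact robust_one s h1 p hp1 z a b hza hzb hab hz x hx y hy ha hb h
  rcases hdic a hqa with ha0 | ha1 <;> rcases hdic b hqb with hb0 | hb1 <;>
    rcases hdic c hqc with hc0 | hc1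
  · exact robust_two s h1 p a b hab ha0 hb0
  · exact robust_two s h1 p a b hab ha0 hb0
  · exact robust_two s h1 p a c hac ha0 hc0
  · exact hone a b c hab hac hbc ha0 hb1 hc1 hqb hqc
  · exact robust_two s h1 p b c hbc hb0 hc0
  · exact hone b a c hab.symm hbc hac hb0 ha1 hc1 hqa hqc
  · exact hone c a b hac.symm hbc.symm hab hc0 ha1 hb1 hqa hqb
  · exfalso
    obtain ⟨x, hx⟩ := ha1
    obtain ⟨y, hy⟩ := hb1
    obtain ⟨z, hz⟩ := hc1
    have := hp1 ⟨a, x⟩ ⟨b, y⟩ ⟨c, z⟩ hx hy hz (by simpa using hab) (by simpa using hac)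
    exact hbc (congrArg Sigma.fst this)

theorem not_satisfies {V : Type} [Fintype V] (G : SimpleGraph V) (k : ℕ) (hk : 3 ≤ k)
    (hχ : G.chromaticNumber = k) (hR : MatchingRobust G k) : ¬ SatisfiesFormula G := by
  rintro ⟨k', hk', n₀, hn₀⟩
  have hkk : k' = k := by
    have : (k' : ℕ∞) = k := hk'.symm.trans hχ
    exact_mod_cast this
  subst hkk
  have h1 := criterion G k' hk hR (n₀ + 1) (by omega)
  have h2 := hn₀ (2 * (n₀ + 1) - 1 + 1) (by omega) (starGraph 0) (isTree_starGraph 0)
  rw [h2] at h1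
  simp only [Nat.add_sub_cancel] at h1
  omega

/-- **Result.** Let `G` be the complete multipartite graph with `k ≥ 3` classes of sizes
`s i ≥ 1`, at most one of which is a single vertex. Then for every odd `n` the star `K_{1,n}`
(a tree on `n + 1` vertices) has `r(G, K_{1,n}) > (k-2) n + r(𝓑(G), K_{1,n})`; in particular `G`
does not satisfy the decomposition formula. -/
theorem result (k : ℕ) (s : Fin k → ℕ) (hk : 3 ≤ k) (h1 : ∀ i, 1 ≤ s i)
    (h2 : ∀ i j, i ≠ j → 2 ≤ s i ∨ 2 ≤ s j) :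
    (∀ n : ℕ, Odd n →
      (k - 2) * n + ram (decomp (completeMultipartiteGraph fun i : Fin k => Fin (s i)))
          (starGraph (0 : Fin (n + 1))) <
        ram {⟨_, completeMultipartiteGraph fun i : Fin k => Fin (s i)⟩}
          (starGraph (0 : Fin (n + 1)))) ∧
    ¬ SatisfiesFormula (completeMultipartiteGraph fun i : Fin k => Fin (s i)) := by
  refine ⟨?_, not_satisfies _ k hk (chrom_KM s h1) (robust_KM s hk h1 h2)⟩
  rintro n ⟨m, rfl⟩
  exact criterion (KM s) k hk (robust_KM s hk h1 h2) (m + 1) (by omega)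

end Pool.Agent.Results.MP_33a63d_co.CompleteMultipartite
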